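import Mathlib
import Pool.Agent.Y567.DF.Fin

/-!
# Topological conjugacy of diffeomorphisms is not reducible to an action of `S_∞`

Let `M` be a compact smooth manifold without boundary, of dimension at least two. Topological
conjugacy `E_M` on the Polish space `Diff^∞(M)` is not Borel reducible to the orbit equivalence
relation of a Borel action of `S_∞` on a standard Borel space.
-/

set_option autoImplicit false

open scoped ContDiff Manifold

namespace Pool.Agent.Results.MP_9aeaaa_lc.NotSInfinity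

open Pool.Agent.H410R3.KS (DiffR crTopology)

universe u

/-- Topological conjugacy on `Diff^∞(M)`. -/
def EM (E M : Type) [NormedAddCommGroup E] [NormedSpace ℝ E] [FiniteDimensional ℝ E]
    [TopologicalSpace M] [ChartedSpace E M] (f g : DiffR 𝓘(ℝ, E) M ⊤) : Prop :=
  ∃ h : M ≃ₜ M, ∀ x, h (f.map x) = g.map (h x)

/-- `S_∞` acts on `Y` in a Borel way: the action is a Borel map `S_∞ × Y → Y`, where `S_∞` carries the
Borel structure of the topology of pointwise convergence. -/
def BorelAction (Y : Type u) [MeasurableSpace Y] [MulAction (Equiv.Perm ℕ) Y] : Prop :=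
  @Measurable (Equiv.Perm ℕ × Y) Y
    (@Prod.instMeasurableSpace _ _ (@borel (Equiv.Perm ℕ) (TopologicalSpace.induced
      (fun (σ : Equiv.Perm ℕ) (n : ℕ) => σ n) Pi.topologicalSpace)) _) _ (fun p => p.1 • p.2)

theorem result (E M : Type) [NormedAddCommGroup E] [NormedSpace ℝ E] [FiniteDimensional ℝ E]
    (hE : 2 ≤ Module.finrank ℝ E) [TopologicalSpace M] [T2Space M] [CompactSpace M] [Nonempty M]
    [ChartedSpace E M] [IsManifold 𝓘(ℝ, E) ∞ M]
    (Y : Type u) [MeasurableSpace Y] [StandardBorelSpace Y] [MulAction (Equiv.Perm ℕ) Y]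
    (hY : BorelAction Y) :
    ¬ ∃ θ : DiffR 𝓘(ℝ, E) M ⊤ → Y,
      @Measurable _ _ (@borel _ (crTopology 𝓘(ℝ, E) M ⊤)) _ θ ∧
        ∀ f g : DiffR 𝓘(ℝ, E) M ⊤, EM E M f g ↔ ∃ σ : Equiv.Perm ℕ, σ • θ f = θ g := by
  rintro ⟨θ, hθ, hred⟩
  exact Pool.Agent.Y567.DF.no_reduction hE hY θ hθ hred

end Pool.Agent.Results.MP_9aeaaa_lc.NotSInfinity
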